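import Pool.Agent.H30.BV.Targets

/-!
Module PW of board bv_modules (MP_04ff0f_nt): truncated inclusion-exclusion.
-/

set_option autoImplicit false

open Finset

namespace Pool.Agent.H34.BV

open Pool.Agent.H30.BV

theorem alt_sum (m r : ℕ) :
    ∑ i ∈ range (r + 1), (-1 : ℝ) ^ i * (Nat.choose (m + 1) i : ℝ) =
      (-1 : ℝ) ^ r * (Nat.choose m r : ℝ) := by
  induction r with
  | zero => simp
  | succ r ih =>
    rw [sum_range_succ, ih, Nat.choose_succ_succ]
    push_cast
    ring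

theorem grp (T : Finset ℕ) (F : ℕ → ℝ) :
    ∑ s ∈ T.powerset, F s.card = ∑ i ∈ range (T.card + 1), (Nat.choose T.card i : ℝ) * F i := by
  have h := Finset.sum_powerset_apply_card (f := F) (x := T)
  simpa [nsmul_eq_mul] using h

theorem grp_le (T : Finset ℕ) (F : ℕ → ℝ) (N : ℕ) (hN : T.card ≤ N) :
    ∑ s ∈ T.powerset, F s.card = ∑ i ∈ range (N + 1), (Nat.choose T.card i : ℝ) * F i := by
  rw [grp]
  refine sum_subset (range_subset_range.2 (by omega)) ?_
  intro i _ hi
  rw [mem_range, not_lt] at hi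
  rw [Nat.choose_eq_zero_of_lt (by omega)]
  simp

theorem pw : T_PW := by
  intro T b
  rcases Finset.eq_empty_or_nonempty T with hT | hT
  · subst hT
    simp
  have hT0 : T ≠ ∅ := hT.ne_empty
  obtain ⟨m, hm⟩ : ∃ m, T.card = m + 1 :=
    ⟨T.card - 1, by have := hT.card_pos; omega⟩
  have hA : ∑ s ∈ T.powerset, (if s.card ≤ 2 * b then (-1 : ℝ) ^ s.card else 0) =
      (Nat.choose m (2 * b) : ℝ) := by
    rw [grp_le T (fun i => if i ≤ 2 * b then (-1 : ℝ) ^ i else 0) (T.card + 2 * b) (by omega)]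
    have h1 : ∑ i ∈ range (2 * b + 1), (Nat.choose T.card i : ℝ) *
          (if i ≤ 2 * b then (-1 : ℝ) ^ i else 0) =
        ∑ i ∈ range (T.card + 2 * b + 1), (Nat.choose T.card i : ℝ) *
          (if i ≤ 2 * b then (-1 : ℝ) ^ i else 0) := by
      refine sum_subset (range_subset_range.2 (by omega)) ?_
      intro i _ hi
      rw [mem_range, not_lt] at hi
      rw [if_neg (by omega), mul_zero]
    rw [← h1]
    have h2 : ∑ i ∈ range (2 * b + 1), (Nat.choose T.card i : ℝ) *
          (if i ≤ 2 * b then (-1 : ℝ) ^ i else 0) =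
        ∑ i ∈ range (2 * b + 1), (-1 : ℝ) ^ i * (Nat.choose (m + 1) i : ℝ) := by
      refine sum_congr rfl ?_
      intro i hi
      rw [mem_range] at hi
      rw [if_pos (by omega), hm, mul_comm]
    rw [h2, alt_sum, pow_mul]
    simp
  have hB : ∑ s ∈ T.powerset, (if s.card = 2 * b + 1 then (1 : ℝ) else 0) =
      (Nat.choose (m + 1) (2 * b + 1) : ℝ) := by
    rw [grp_le T (fun i => if i = 2 * b + 1 then (1 : ℝ) else 0) (T.card + 2 * b + 1) (by omega)]
    rw [sum_eq_single (2 * b + 1)]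
    · rw [if_pos rfl, mul_one, hm]
    · intro i _ hi
      rw [if_neg hi, mul_zero]
    · intro hi
      exact absurd (mem_range.2 (by omega)) hi
  rw [hA, hB, if_neg hT0, Nat.choose_succ_succ]
  push_cast
  have h3 : (0 : ℝ) ≤ (Nat.choose m (2 * b) : ℝ) := Nat.cast_nonneg _
  have h4 : (0 : ℝ) ≤ (Nat.choose m (2 * b + 1) : ℝ) := Nat.cast_nonneg _
  exact ⟨h3, by linarith⟩

end Pool.Agent.H34.BV
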