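import Pool.Agent.H30.BV.Targets

/-!
Module S2 of board bv_modules (MP_04ff0f_nt): interchange of the sums over `d` and `q`.
-/

set_option autoImplicit false

open Finset

namespace Pool.Agent.H34.BV

open Pool.Agent.H30.BV

theorem hd_nonneg (d : ℕ) : 0 ≤ hd d := by
  unfold hd
  positivity

theorem hd_mul (a b : ℕ) (h : a.Coprime b) : hd (a * b) = hd a * hd b := by
  unfold hd
  rw [Nat.Coprime.primeFactors_mul h, card_union_of_disjoint h.disjoint_primeFactors,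
    Nat.totient_mul h, pow_add]
  push_cast
  rw [mul_div_mul_comm]

theorem mem_DD {D p₁ d : ℕ} : d ∈ DD D p₁ ↔
    (1 ≤ d ∧ d ≤ D) ∧ Squarefree d ∧ Odd d ∧ ¬ p₁ ∣ d := by
  simp only [DD, mem_filter, mem_Icc]

/-- a divisor of a modulus is a modulus -/
theorem DD_dvd {D p₁ d e : ℕ} (h : d ∈ DD D p₁) (he : e ∣ d) : e ∈ DD D p₁ := by
  rw [mem_DD] at h ⊢
  obtain ⟨⟨h1, h2⟩, h3, h4, h5⟩ := h
  have h0 : 0 < e := Nat.pos_of_dvd_of_pos he (by omega)
  exact ⟨⟨h0, (Nat.le_of_dvd (by omega) he).trans h2⟩, h3.squarefree_of_dvd he,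
    h4.of_dvd_nat he, fun h => h5 (h.trans he)⟩

theorem inner (D p₁ q : ℕ) (hq : q ∈ DD D p₁) :
    ∑ d ∈ (DD D p₁).filter (fun d => q ∣ d), hd d ≤ hd q * ∑ e ∈ DD D p₁, hd e := by
  have hq0 : 0 < q := (mem_DD.1 hq).1.1
  have hmul : ∀ d ∈ (DD D p₁).filter (fun d => q ∣ d), q * (d / q) = d := by
    intro d h
    exact Nat.mul_div_cancel' (mem_filter.1 h).2
  have h1 : ∀ d ∈ (DD D p₁).filter (fun d => q ∣ d), hd d = hd q * hd (d / q) := by
    intro d h
    have h2 := hmul d h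
    have h3 : Squarefree (q * (d / q)) := by
      rw [h2]
      exact (mem_DD.1 (mem_filter.1 h).1).2.1
    have h4 := hd_mul q (d / q) (Nat.coprime_of_squarefree_mul h3)
    rw [h2] at h4
    exact h4
  have hinj : Set.InjOn (fun d => d / q)
      (((DD D p₁).filter (fun d => q ∣ d) : Finset ℕ) : Set ℕ) := by
    intro a ha b hb hab
    have ha' := hmul a (mem_coe.1 ha)
    have hb' := hmul b (mem_coe.1 hb)
    simp only at hab
    rw [← ha', ← hb', hab]
  rw [sum_congr rfl h1, ← mul_sum]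
  refine mul_le_mul_of_nonneg_left ?_ (hd_nonneg q)
  rw [← sum_image (f := hd) (g := fun d => d / q) hinj]
  refine sum_le_sum_of_subset_of_nonneg ?_ (fun i _ _ => hd_nonneg i)
  intro e he
  obtain ⟨d, hd', rfl⟩ := mem_image.1 he
  exact DD_dvd (mem_filter.1 hd').1 (Nat.div_dvd_of_dvd (mem_filter.1 hd').2)

theorem s2 : T_S2 := by
  intro D p₁ F hF
  have hL : ∑ d ∈ DD D p₁, hd d * ∑ q ∈ d.divisors.erase 1, F q =
      ∑ q ∈ (DD D p₁).erase 1, (∑ d ∈ (DD D p₁).filter (fun d => q ∣ d), hd d) * F q := by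
    simp only [mul_sum, sum_mul]
    refine sum_comm' ?_
    intro d q
    rw [mem_erase, mem_erase, mem_filter, Nat.mem_divisors]
    constructor
    · rintro ⟨h1, h2, h3, _⟩
      exact ⟨⟨h1, h3⟩, h2, DD_dvd h1 h3⟩
    · rintro ⟨⟨h1, h3⟩, h2, _⟩
      exact ⟨h1, h2, h3, by have := (mem_DD.1 h1).1.1; omega⟩
  rw [hL, mul_sum]
  refine sum_le_sum ?_
  intro q hq
  have h1 := inner D p₁ q (mem_of_mem_erase hq)
  calc (∑ d ∈ (DD D p₁).filter (fun d => q ∣ d), hd d) * F q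
      ≤ (hd q * ∑ e ∈ DD D p₁, hd e) * F q := mul_le_mul_of_nonneg_right h1 (hF q)
    _ = (∑ e ∈ DD D p₁, hd e) * (hd q * F q) := by ring

end Pool.Agent.H34.BV
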